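import Mathlib

set_option autoImplicit false

namespace Pool.Agent.Results.MP_1cb079_al.WeakCancellation

open scoped commutatorElement
open Subgroup

universe u

/-- `G` is almost torsion-free: for every `n > 0` there are only finitely many `g` with
`g ^ n = 1`. -/
def AlmostTorsionFree (G : Type u) [Group G] : Prop :=
  ∀ n : ℕ, 0 < n → {g : G | g ^ n = 1}.Finite

/-- The weak cancellation law: for every `n > 0` the power map `x ↦ x ^ n` is
finitely-many-to-one. -/
def WeakCancellationLaw (G : Type u) [Group G] : Prop :=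
  ∀ n : ℕ, 0 < n → ∀ y : G, {x : G | x ^ n = y}.Finite

variable {G : Type u} [Group G]

/-- The lower central series. -/
abbrev LC (G : Type u) [Group G] (n : ℕ) : Subgroup G :=
  Subgroup.lowerCentralSeries (⊤ : Subgroup G) n

/-- Products of commuting elements with a power in a normal subgroup. -/
lemma pow_mem_of_comm {N : Subgroup G} [N.Normal] {a b : G} (hab : ⁅a, b⁆ ∈ N) {m k : ℕ}
    (hm : 0 < m) (hk : 0 < k) (ha : a ^ m ∈ N) (hb : b ^ k ∈ N) : ∃ l : ℕ, 0 < l ∧ (a * b) ^ l ∈ N := by
  refine ⟨m * k, Nat.mul_pos hm hk, ?_⟩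
  have h1 : Commute (a : G ⧸ N) (b : G ⧸ N) := by
    rw [← commutatorElement_eq_one_iff_commute]
    exact (QuotientGroup.eq_one_iff _).2 hab
  rw [← QuotientGroup.eq_one_iff, QuotientGroup.mk_pow, QuotientGroup.mk_mul, h1.mul_pow]
  have ha' : (a : G ⧸ N) ^ m = 1 := (QuotientGroup.eq_one_iff _).2 ha
  have hb' : (b : G ⧸ N) ^ k = 1 := (QuotientGroup.eq_one_iff _).2 hb
  rw [pow_mul, ha', one_pow, one_mul, mul_comm m k, pow_mul, hb', one_pow]

/-- If `A` is generated by elements with powers in the normal subgroup `N`, and `A` is abelian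
modulo `N`, then all elements of `A` have powers in `N`. -/
lemma torsion_closure {N : Subgroup G} [N.Normal] (S : Set G)
    (hS : ∀ s ∈ S, ∃ m : ℕ, 0 < m ∧ s ^ m ∈ N)
    (hab : ∀ a ∈ closure S, ∀ b ∈ closure S, ⁅a, b⁆ ∈ N) :
    ∀ g ∈ closure S, ∃ m : ℕ, 0 < m ∧ g ^ m ∈ N := by
  intro g hg
  induction hg using closure_induction with
  | mem s hs => exact hS s hs
  | one => exact ⟨1, one_pos, by rw [pow_one]; exact N.one_mem⟩
  | mul a b ha hb iha ihb =>
      obtain ⟨m, hm, hm'⟩ := iha
      obtain ⟨k, hk, hk'⟩ := ihb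
      exact pow_mem_of_comm (hab a ha b hb) hm hk hm' hk'
  | inv a ha iha =>
      obtain ⟨m, hm, hm'⟩ := iha
      exact ⟨m, hm, by rw [inv_pow]; exact N.inv_mem hm'⟩

/-- Powers of commutators modulo a central step. -/
lemma comm_pow {N : Subgroup G} [N.Normal] {a g : G} (hc : ∀ h : G, ⁅⁅a, g⁆, h⁆ ∈ N) (m : ℕ) :
    (((⁅a, g⁆ : G) : G ⧸ N)) ^ m = (((⁅a ^ m, g⁆ : G) : G ⧸ N)) := by
  have hcen : ∀ h : G, Commute (((⁅a, g⁆ : G) : G ⧸ N)) (h : G ⧸ N) := by
    intro h
    rw [← commutatorElement_eq_one_iff_commute]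
    exact (QuotientGroup.eq_one_iff _).2 (hc h)
  induction m with
  | zero => simp [commutatorElement_def]
  | succ m ih =>
      have e1 : ⁅a ^ (m + 1), g⁆ = a * ⁅a ^ m, g⁆ * a⁻¹ * ⁅a, g⁆ := by
        simp only [commutatorElement_def, pow_succ']
        group
      rw [e1, pow_succ, ih]
      have hcen' : Commute ((⁅a ^ m, g⁆ : G) : G ⧸ N) (a : G ⧸ N) := by
        rw [← ih]
        exact (hcen a).pow_left m
      rw [QuotientGroup.mk_mul, QuotientGroup.mk_mul, QuotientGroup.mk_mul, QuotientGroup.mk_inv,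
        ← hcen'.eq, mul_assoc (((⁅a ^ m, g⁆ : G) : G ⧸ N)), mul_inv_cancel, mul_one]

instance (n : ℕ) : (LC G n).Normal := by
  unfold LC
  infer_instance

/-- If the abelianization is a torsion group, then so are all lower central factors. -/
lemma lower_torsion (h0 : ∀ g : G, ∃ m : ℕ, 0 < m ∧ g ^ m ∈ LC G 1) (n : ℕ) :
    ∀ g ∈ LC G n, ∃ m : ℕ, 0 < m ∧ g ^ m ∈ LC G (n + 1) := by
  induction n with
  | zero => exact fun g _ => h0 g
  | succ n ih =>
      have hcl : LC G (n + 1) = closure {x | ∃ a ∈ LC G n, ∃ g : G, ⁅a, g⁆ = x} := by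
        show Subgroup.lowerCentralSeries (⊤ : Subgroup G) (n + 1) = _
        rw [Subgroup.lowerCentralSeries_succ, Subgroup.commutator_def]
        congr 1
        ext x
        simp [LC]
      rw [hcl]
      apply torsion_closure
      · rintro x ⟨a, ha, g, rfl⟩
        obtain ⟨m, hm, hm'⟩ := ih a ha
        refine ⟨m, hm, ?_⟩
        have hc : ∀ h : G, ⁅⁅a, g⁆, h⁆ ∈ LC G (n + 1 + 1) := fun h =>
          commutator_mem_commutator (commutator_mem_commutator ha (mem_top g)) (mem_top h)
        rw [← QuotientGroup.eq_one_iff, QuotientGroup.mk_pow, comm_pow hc,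
          QuotientGroup.eq_one_iff]
        exact commutator_mem_commutator hm' (mem_top g)
      · intro a ha b hb
        rw [← hcl] at ha
        exact commutator_mem_commutator ha (mem_top b)

/-- A nilpotent group with torsion abelianization is a torsion group. -/
lemma torsion_of_abelianization [hG : Group.IsNilpotent G]
    (h0 : ∀ g : G, ∃ m : ℕ, 0 < m ∧ g ^ m ∈ LC G 1) (g : G) : ∃ m : ℕ, 0 < m ∧ g ^ m = 1 := by
  obtain ⟨n, hn⟩ := Subgroup.nilpotent_iff_lowerCentralSeries.1 hG
  have key : ∀ k, ∃ m : ℕ, 0 < m ∧ g ^ m ∈ LC G k := by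
    intro k
    induction k with
    | zero => exact ⟨1, one_pos, by show g ^ 1 ∈ (⊤ : Subgroup G); exact mem_top _⟩
    | succ k ih =>
        obtain ⟨m, hm, hm'⟩ := ih
        obtain ⟨l, hl, hl'⟩ := lower_torsion h0 k _ hm'
        exact ⟨m * l, Nat.mul_pos hm hl, by rw [pow_mul]; exact hl'⟩
  obtain ⟨m, hm, hm'⟩ := key n
  refine ⟨m, hm, ?_⟩
  have : g ^ m ∈ (⊥ : Subgroup G) := by rw [← hn]; exact hm'
  exact mem_bot.1 this

/-- The abelianization is torsion as soon as it is generated by torsion elements. -/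
lemma abelianization_torsion (S : Set G) (hS : closure S = ⊤)
    (h : ∀ s ∈ S, ∃ m : ℕ, 0 < m ∧ s ^ m ∈ LC G 1) :
    ∀ g : G, ∃ m : ℕ, 0 < m ∧ g ^ m ∈ LC G 1 := by
  intro g
  apply torsion_closure S h
  · intro a _ b _
    exact commutator_mem_commutator (mem_top a) (mem_top b)
  · rw [hS]; exact mem_top g

/-- The case of a group generated by `x` and `y`. -/
lemma two_generated [Group.IsNilpotent G] (x y : G) (hgen : closure {x, y} = ⊤) {n : ℕ}
    (hn : 0 < n) (hxy : x ^ n = y ^ n) : ∃ m : ℕ, 0 < m ∧ (x⁻¹ * y) ^ m = 1 := by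
  -- the common power is central
  have hz : x ^ n ∈ center G := by
    have : closure {x, y} ≤ centralizer {x ^ n} := by
      rw [closure_le]
      intro g hg
      rcases hg with rfl | hg
      · exact mem_centralizer_singleton_iff.2 ((Commute.refl g).pow_right n).eq
      · rw [Set.mem_singleton_iff] at hg
        rw [hg, hxy]
        exact mem_centralizer_singleton_iff.2 ((Commute.refl y).pow_right n).eq
    rw [hgen] at this
    rw [mem_center_iff]
    intro g
    exact mem_centralizer_singleton_iff.1 (this (mem_top g))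
  have hZn : (zpowers (x ^ n)).Normal := by
    refine ⟨fun g hg h => ?_⟩
    obtain ⟨k, rfl⟩ := mem_zpowers_iff.1 hg
    have h1 : (x ^ n) ^ k ∈ center G := (center G).zpow_mem hz k
    rw [mem_center_iff] at h1
    rw [h1 h, mul_inv_cancel_right]
    exact hg
  -- the quotient is a torsion group
  have hq : ∀ q : G ⧸ zpowers (x ^ n), ∃ m : ℕ, 0 < m ∧ q ^ m = 1 := by
    have : Group.IsNilpotent (G ⧸ zpowers (x ^ n)) :=
      Group.nilpotent_of_surjective (QuotientGroup.mk' (zpowers (x ^ n))) (QuotientGroup.mk'_surjective _)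
    apply torsion_of_abelianization
    apply abelianization_torsion ((QuotientGroup.mk' (zpowers (x ^ n))) '' {x, y})
    · rw [← MonoidHom.map_closure, hgen, ← MonoidHom.range_eq_map]
      exact MonoidHom.range_eq_top.2 (QuotientGroup.mk'_surjective _)
    · rintro _ ⟨g, hg, rfl⟩
      refine ⟨n, hn, ?_⟩
      have h1 : g ^ n = x ^ n := by
        rcases hg with rfl | hg
        · rfl
        · rw [Set.mem_singleton_iff] at hg
          rw [hg, hxy]
      rw [← map_pow, h1]
      have : (QuotientGroup.mk' (zpowers (x ^ n))) (x ^ n) = 1 :=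
        (QuotientGroup.eq_one_iff _).2 (mem_zpowers _)
      rw [this]
      exact Subgroup.one_mem _
  obtain ⟨m, hm, hm'⟩ := hq ((x⁻¹ * y : G) : G ⧸ zpowers (x ^ n))
  rw [← QuotientGroup.mk_pow, QuotientGroup.eq_one_iff] at hm'
  obtain ⟨k, hk⟩ := mem_zpowers_iff.1 hm'
  by_cases hk0 : k = 0
  · refine ⟨m, hm, ?_⟩
    rw [← hk, hk0, zpow_zero]
  · -- the abelianization of `G` is torsion
    have hab : (x ^ n) ^ (k * n) ∈ LC G 1 := by
      have e1 : LC G 1 = commutator G := rfl
      rw [e1, ← QuotientGroup.eq_one_iff]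
      have e2 : (((x⁻¹ * y : G)) : G ⧸ commutator G) ^ n = 1 := by
        have hcomm : Commute ((x⁻¹ : G) : G ⧸ commutator G) (y : G ⧸ commutator G) := by
          rw [← commutatorElement_eq_one_iff_commute]
          exact (QuotientGroup.eq_one_iff _).2
            (commutator_mem_commutator (mem_top x⁻¹) (mem_top y))
        rw [QuotientGroup.mk_mul, hcomm.mul_pow, ← QuotientGroup.mk_pow, ← QuotientGroup.mk_pow,
          ← hxy, inv_pow, QuotientGroup.mk_inv, inv_mul_cancel]
      rw [zpow_mul, hk, zpow_natCast, ← pow_mul, mul_comm, pow_mul, QuotientGroup.mk_pow,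
        QuotientGroup.mk_pow, e2, one_pow]
    have hxt : ∃ l : ℕ, 0 < l ∧ (x ^ n) ^ l ∈ LC G 1 := by
      refine ⟨(k * n).natAbs, ?_, ?_⟩
      · rw [Nat.pos_iff_ne_zero]
        intro h0
        rcases mul_eq_zero.1 (Int.natAbs_eq_zero.1 h0) with h1 | h1
        · exact hk0 h1
        · omega
      · rcases Int.natAbs_eq (k * n) with h1 | h1
        · rw [← zpow_natCast, ← h1]; exact hab
        · have h2 : ((k * n).natAbs : ℤ) = -(k * n) := by omega
          rw [← zpow_natCast, h2, zpow_neg]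
          exact (LC G 1).inv_mem hab
    obtain ⟨l, hl, hl'⟩ := hxt
    apply torsion_of_abelianization
    apply abelianization_torsion {x, y} hgen
    intro s hs
    refine ⟨n * l, Nat.mul_pos hn hl, ?_⟩
    have h1 : s ^ n = x ^ n := by
      rcases hs with rfl | hs
      · rfl
      · rw [Set.mem_singleton_iff] at hs
        rw [hs, hxy]
    rw [pow_mul, h1]
    exact hl'

/-- In a nilpotent group, `x ^ n = y ^ n` implies that `x⁻¹ y` has finite order. -/
theorem quotient_torsion [Group.IsNilpotent G] (x y : G) {n : ℕ}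
    (hn : 0 < n) (hxy : x ^ n = y ^ n) : ∃ m : ℕ, 0 < m ∧ (x⁻¹ * y) ^ m = 1 := by
  let H : Subgroup G := closure {x, y}
  have hx : x ∈ H := subset_closure (by simp)
  have hy : y ∈ H := subset_closure (by simp)
  have hgen : closure {(⟨x, hx⟩ : H), (⟨y, hy⟩ : H)} = ⊤ := by
    have h1 := closure_closure_coe_preimage (k := ({x, y} : Set G))
    have h2 : (((↑) : closure ({x, y} : Set G) → G) ⁻¹' {x, y}) = {(⟨x, hx⟩ : H), (⟨y, hy⟩ : H)} := by
      ext z
      simp [Subtype.ext_iff]
    rw [h2] at h1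
    exact h1
  obtain ⟨m, hm, hm'⟩ := two_generated (⟨x, hx⟩ : H) ⟨y, hy⟩ hgen hn (Subtype.ext hxy)
  exact ⟨m, hm, congrArg Subtype.val hm'⟩

/-- Every nilpotent almost torsion-free group satisfies the weak cancellation law. -/
theorem result (G : Type u) [Group G] (hG : Group.IsNilpotent G) (h : AlmostTorsionFree G) :
    WeakCancellationLaw G := by
  intro n hn y
  by_contra hinf
  have hinf' : {x : G | x ^ n = y}.Infinite := hinf
  let e := hinf'.natEmbedding
  have he : ∀ i, (e i : G) ^ n = y := fun i => (e i).2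
  have : Group.IsNilpotent (ℕ → G) :=
    Group.isNilpotent_pi_of_bounded_class (Group.nilpotencyClass G) (fun _ => le_rfl)
  obtain ⟨m, hm, hm'⟩ := quotient_torsion (G := ℕ → G) (fun _ => (e 0 : G)) (fun i => (e i : G)) hn
    (by
      funext i
      show (e 0 : G) ^ n = (e i : G) ^ n
      rw [he, he])
  have hfin := h m hm
  have hmem : ∀ i, (e 0 : G)⁻¹ * (e i : G) ∈ {g : G | g ^ m = 1} := fun i => congrFun hm' i
  have hinj : Function.Injective (fun i => (e 0 : G)⁻¹ * (e i : G)) := by
    intro i j hij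
    have : (e i : G) = (e j : G) := mul_left_cancel hij
    exact e.injective (Subtype.ext this)
  exact Set.infinite_range_of_injective hinj (hfin.subset (by rintro _ ⟨i, rfl⟩; exact hmem i))

end Pool.Agent.Results.MP_1cb079_al.WeakCancellation
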